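import Mathlib
import Pool.Agent.H979.GW.StmA

set_option autoImplicit false

open MeasureTheory ProbabilityTheory Filter Topology Set
open scoped ENNReal NNReal

namespace Pool.Agent.H353

open Pool.Agent.H979.GW

namespace GWB

variable {Q : Type} [Fintype Q] [DecidableEq Q]

/-- the sum over the children of type `b` of a function of the siblings' sum -/
noncomputable def Sg (ρ : ℝ) (e : Q → ℝ) (b : Q) (g : ℝ → ℝ) (ω : Env Q) : ℝ :=
  ∑ c ∈ chd (ω []), if c.1 = b then g (Bc ρ e ω c) else 0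

omit [Fintype Q] [DecidableEq Q] in
theorem meas_sh (v : Vx Q) : Measurable (sh (Q := Q) v) :=
  measurable_pi_lambda _ fun _ => measurable_pi_apply _

theorem int3 {Ω : Type*} [MeasurableSpace Ω] {μ : Measure Ω} {f g h : Ω → ℝ}
    (hf : Integrable f μ) (hg : Integrable g μ) (hh : Integrable h μ) :
    ∫ x, (f x + g x + h x) ∂μ = ∫ x, f x ∂μ + ∫ x, g x ∂μ + ∫ x, h x ∂μ := by
  have h1 : ∫ x, (f x + g x + h x) ∂μ = ∫ x, (f x + g x) ∂μ + ∫ x, h x ∂μ :=
    integral_add (hf.add hg) hh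
  rw [h1, integral_add hf hg]

theorem meas_aux {α β γ : Type} [MeasurableSpace α] [MeasurableSpace β] [Countable β]
    [MeasurableSingletonClass β] (chs : β → Finset γ) (F : β → γ → α → ℝ)
    (hF : ∀ x c, Measurable (F x c)) (π : α → β) (hπ : Measurable π) :
    Measurable fun ω => ∑ c ∈ chs (π ω), F (π ω) c ω := by
  have h1 : Measurable (fun p : α × β => ∑ c ∈ chs p.2, F p.2 c p.1) :=
    measurable_from_prod_countable_left fun x => Finset.measurable_sum (chs x) fun c _ => hF x c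
  exact h1.comp (measurable_id.prodMk hπ)

theorem meas_Sg {ρ : ℝ} {e : Q → ℝ} (hW : ∀ a, Measurable (WW ρ e a)) (b : Q) {g : ℝ → ℝ}
    (hg : Measurable g) : Measurable (Sg ρ e b g) := by
  have hx : ∀ (x : Q → ℕ) (c : Q × ℕ), Measurable (fun ω : Env Q =>
      if c.1 = b then g (∑ d ∈ (chd x).erase c, WW ρ e d.1 (sh [d] ω)) else (0 : ℝ)) := by
    intro x c
    by_cases hc : c.1 = b
    · have h0 : Measurable (fun ω : Env Q => ∑ d ∈ (chd x).erase c, WW ρ e d.1 (sh [d] ω)) :=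
        Finset.measurable_sum _ fun d _ => (hW d.1).comp (meas_sh [d])
      simp only [if_pos hc]
      exact hg.comp h0
    · simp only [if_neg hc]
      exact measurable_const
  have h1 := meas_aux (fun x : Q → ℕ => chd x) (fun x c (ω : Env Q) =>
      if c.1 = b then g (∑ d ∈ (chd x).erase c, WW ρ e d.1 (sh [d] ω)) else (0 : ℝ)) hx
      (fun ω : Env Q => ω ([] : Vx Q)) (measurable_pi_apply _)
  have h2 : Sg ρ e b g = fun ω : Env Q => ∑ c ∈ chd (ω []), (if c.1 = b then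
      g (∑ d ∈ (chd (ω [])).erase c, WW ρ e d.1 (sh [d] ω)) else (0 : ℝ)) := by
    funext ω
    simp only [Sg, Bc]
  rw [h2]
  exact h1

theorem Bc_nonneg {ρ : ℝ} {e : Q → ℝ} (hW : ∀ a ω, 0 ≤ WW ρ e a ω) (ω : Env Q) (c : Q × ℕ) :
    0 ≤ Bc ρ e ω c := Finset.sum_nonneg fun _ _ => hW _ _

theorem dexp_nonneg {θ x : ℝ} (hθ : 0 < θ) (hx : 0 ≤ x) : 0 ≤ (1 - Real.exp (-(θ * x))) / θ := by
  have : Real.exp (-(θ * x)) ≤ 1 := Real.exp_le_one_iff.2 (by nlinarith [mul_nonneg hθ.le hx])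
  exact div_nonneg (by linarith) hθ.le

theorem dexp_le {θ x : ℝ} (hθ : 0 < θ) : (1 - Real.exp (-(θ * x))) / θ ≤ x := by
  rw [div_le_iff₀ hθ]
  have := Real.add_one_le_exp (-(θ * x))
  nlinarith

theorem dexp_anti {θ θ' x : ℝ} (hθ : 0 < θ) (h : θ ≤ θ') :
    (1 - Real.exp (-(θ' * x))) / θ' ≤ (1 - Real.exp (-(θ * x))) / θ := by
  have hθ' : 0 < θ' := hθ.trans_le h
  have hc := convexOn_exp.2 (Set.mem_univ (0 : ℝ)) (Set.mem_univ (-(θ' * x)))
    (show (0 : ℝ) ≤ 1 - θ / θ' by rw [sub_nonneg, div_le_one hθ']; exact h)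
    (show (0 : ℝ) ≤ θ / θ' by positivity) (by ring)
  simp only [smul_eq_mul, mul_zero, zero_add, Real.exp_zero, mul_one] at hc
  have h3 : θ / θ' * -(θ' * x) = -(θ * x) := by field_simp
  rw [h3] at hc
  rw [div_le_div_iff₀ hθ' hθ]
  have h4 : Real.exp (-(θ * x)) * θ' ≤ (1 - θ / θ' + θ / θ' * Real.exp (-(θ' * x))) * θ' :=
    mul_le_mul_of_nonneg_right hc hθ'.le
  have h5 : (1 - θ / θ' + θ / θ' * Real.exp (-(θ' * x))) * θ' =
      θ' - θ + θ * Real.exp (-(θ' * x)) := by field_simp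
  rw [h5] at h4
  nlinarith

theorem dexp_tendsto (x : ℝ) :
    Tendsto (fun θ : ℝ => (1 - Real.exp (-(θ * x))) / θ) (𝓝[>] 0) (𝓝 x) := by
  have h1 : HasDerivAt (fun θ : ℝ => -Real.exp (-(θ * x))) x 0 := by
    have h2 : HasDerivAt (fun θ : ℝ => -(θ * x)) (-x) 0 := by
      have h20 := ((hasDerivAt_id (0 : ℝ)).mul_const x).neg
      rw [one_mul] at h20
      exact h20
    have h3 := h2.exp.neg
    have h30 : -(Real.exp (-((0 : ℝ) * x)) * -x) = x := by simp
    rw [h30] at h3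
    exact h3
  have h4 := h1.tendsto_slope_zero_right
  refine h4.congr' ?_
  filter_upwards [self_mem_nhdsWithin] with θ hθ
  simp only [zero_add, smul_eq_mul, zero_mul, neg_zero, Real.exp_zero]
  field_simp
  ring

theorem Sg_mono {ρ : ℝ} {e : Q → ℝ} (hW : ∀ a ω, 0 ≤ WW ρ e a ω) (b : Q) {g g' : ℝ → ℝ}
    (h : ∀ x, 0 ≤ x → g x ≤ g' x) (ω : Env Q) : Sg ρ e b g ω ≤ Sg ρ e b g' ω := by
  refine Finset.sum_le_sum fun c _ => ?_
  split_ifs
  · exact h _ (Bc_nonneg hW ω c)
  · exact le_rfl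

theorem Sg_nonneg {ρ : ℝ} {e : Q → ℝ} (hW : ∀ a ω, 0 ≤ WW ρ e a ω) (b : Q) {g : ℝ → ℝ}
    (h : ∀ x, 0 ≤ x → 0 ≤ g x) (ω : Env Q) : 0 ≤ Sg ρ e b g ω := by
  refine Finset.sum_nonneg fun c _ => ?_
  split_ifs
  · exact h _ (Bc_nonneg hW ω c)
  · exact le_rfl

theorem Sg_sub (ρ : ℝ) (e : Q → ℝ) (b : Q) (g g' : ℝ → ℝ) (ω : Env Q) :
    Sg ρ e b (fun x => g x - g' x) ω = Sg ρ e b g ω - Sg ρ e b g' ω := by
  unfold Sg
  rw [← Finset.sum_sub_distrib]
  refine Finset.sum_congr rfl fun c _ => ?_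
  split_ifs <;> simp

theorem Sg_div (ρ : ℝ) (e : Q → ℝ) (b : Q) (g : ℝ → ℝ) (θ : ℝ) (ω : Env Q) :
    Sg ρ e b (fun x => g x / θ) ω = Sg ρ e b g ω / θ := by
  unfold Sg
  rw [Finset.sum_div]
  refine Finset.sum_congr rfl fun c _ => ?_
  split_ifs <;> simp

end GWB

open GWB

theorem gw_beta {Q : Type} [Fintype Q] [DecidableEq Q] (q : Q → Measure (Q → ℕ))
    [∀ a, IsProbabilityMeasure (q a)] {ρ : ℝ} {e m : Q → ℝ} {C r : ℝ} (hy : Hyp q ρ e m C r)
    (h1 : S_M1 q) (h2 : S_M2 q) (h3 : S_W q ρ e m) : S_BETA q ρ e m := by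
  obtain ⟨hWm, hW0, hW2, hWi, -, hWrec, -⟩ := h3
  have hρ : 0 < ρ := lt_trans one_pos hy.rho
  -- the number of the children of type `b`
  have hX : ∀ a b, Integrable (Sg ρ e b (fun _ => 1)) (law q a) ∧
      ∫ ω, Sg ρ e b (fun _ => 1) ω ∂(law q a) = mA q a b := by
    intro a b
    have h := h1.2 (fun b' _ => if b' = b then (1 : ℝ) else 0) (fun b' => integrable_const _) a
    have h' : TT (fun b' (_ : Env Q) => if b' = b then (1 : ℝ) else 0) a =
        Sg ρ e b (fun _ => 1) := rfl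
    rw [h'] at h
    refine ⟨h.1, h.2.trans ?_⟩
    simp
  have hX2 : ∀ a b, MemLp (Sg ρ e b (fun _ => 1)) 2 (law q a) := by
    intro a b
    exact (h2 (fun b' _ => if b' = b then (1 : ℝ) else 0) (fun b' => memLp_const _) a).1
  have hK : ∀ a b θ, 0 < θ → Integrable (Sg ρ e b (fun x => Real.exp (-(θ * x)))) (law q a) ∧
      ∫ ω, Sg ρ e b (fun x => Real.exp (-(θ * x))) ω ∂(law q a) = Kth q ρ e θ a b := by
    intro a b θ hθ
    refine ⟨(hX a b).1.mono (meas_Sg hWm b (by fun_prop)).aestronglyMeasurable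
      (Eventually.of_forall fun ω => ?_), rfl⟩
    rw [Real.norm_of_nonneg (Sg_nonneg hW0 b (fun x _ => (Real.exp_pos _).le) ω),
      Real.norm_of_nonneg (Sg_nonneg hW0 b (fun x _ => zero_le_one) ω)]
    refine Sg_mono hW0 b (fun x hx => ?_) ω
    exact Real.exp_le_one_iff.2 (by nlinarith [mul_nonneg hθ.le hx])
  have hD : ∀ a b θ, 0 < θ →
      Integrable (Sg ρ e b (fun x => (1 - Real.exp (-(θ * x))) / θ)) (law q a) ∧
      (mA q a b - Kth q ρ e θ a b) / θ =
        ∫ ω, Sg ρ e b (fun x => (1 - Real.exp (-(θ * x))) / θ) ω ∂(law q a) := by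
    intro a b θ hθ
    have he : Sg ρ e b (fun x => (1 - Real.exp (-(θ * x))) / θ) =
        fun ω => (Sg ρ e b (fun _ => 1) ω - Sg ρ e b (fun x => Real.exp (-(θ * x))) ω) / θ := by
      funext ω
      rw [Sg_div ρ e b (fun x => 1 - Real.exp (-(θ * x))) θ ω,
        Sg_sub ρ e b (fun _ => 1) (fun x => Real.exp (-(θ * x))) ω]
    rw [he]
    refine ⟨((hX a b).1.sub (hK a b θ hθ).1).div_const θ, ?_⟩
    rw [integral_div, integral_sub (hX a b).1 (hK a b θ hθ).1, (hX a b).2, (hK a b θ hθ).2]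
  refine ⟨?_, ?_⟩
  · intro a b θ θ' hθ hθθ
    have hθ' : 0 < θ' := hθ.trans_le hθθ
    rw [(hD a b θ hθ).2, (hD a b θ' hθ').2]
    refine ⟨integral_nonneg fun ω => Sg_nonneg hW0 b (fun x hx => dexp_nonneg hθ' hx) ω, ?_⟩
    exact integral_mono (hD a b θ' hθ').1 (hD a b θ hθ).1 fun ω =>
      Sg_mono hW0 b (fun x _ => dexp_anti hθ hθθ) ω
  -- the integrable majorant
  have hTW : ∀ a, MemLp (TT (WW ρ e) a) 2 (law q a) := fun a => (h2 _ hW2 a).1
  have hBle : ∀ (ω : Env Q) (a : Q) (c : Q × ℕ), Bc ρ e ω c ≤ TT (WW ρ e) a ω := by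
    intro ω a c
    exact Finset.sum_le_sum_of_subset_of_nonneg (Finset.erase_subset _ _)
      (fun d _ _ => hW0 _ _)
  have hI : ∀ a b, Integrable (Sg ρ e b (fun x => x)) (law q a) := by
    intro a b
    have hm := (hX2 a b).integrable_mul (hTW a)
    refine hm.mono (meas_Sg hWm b measurable_id).aestronglyMeasurable
      (Eventually.of_forall fun ω => ?_)
    rw [Real.norm_of_nonneg (Sg_nonneg hW0 b (fun x hx => hx) ω)]
    refine le_trans ?_ (le_abs_self _)
    simp only [Pi.mul_apply, Sg, Finset.sum_mul]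
    refine Finset.sum_le_sum fun c _ => ?_
    split_ifs
    · rw [one_mul]; exact hBle ω a c
    · rw [zero_mul]
  have hlim : ∀ a b, Tendsto (fun θ => (mA q a b - Kth q ρ e θ a b) / θ) (𝓝[>] 0)
      (𝓝 (∫ ω, Sg ρ e b (fun x => x) ω ∂(law q a))) := by
    intro a b
    have ht : Tendsto (fun θ : ℝ => ∫ ω, Sg ρ e b (fun x => (1 - Real.exp (-(θ * x))) / θ) ω
        ∂(law q a)) (𝓝[>] 0) (𝓝 (∫ ω, Sg ρ e b (fun x => x) ω ∂(law q a))) := by
      refine tendsto_integral_filter_of_dominated_convergence (Sg ρ e b (fun x => x)) ?_ ?_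
        (hI a b) ?_
      · filter_upwards [self_mem_nhdsWithin] with θ hθ
        exact (hD a b θ hθ).1.aestronglyMeasurable
      · filter_upwards [self_mem_nhdsWithin] with θ hθ
        refine Eventually.of_forall fun ω => ?_
        rw [Real.norm_of_nonneg (Sg_nonneg hW0 b (fun x hx => dexp_nonneg hθ hx) ω)]
        exact Sg_mono hW0 b (fun x _ => dexp_le hθ) ω
      · refine Eventually.of_forall fun ω => ?_
        refine tendsto_finsetSum _ fun c _ => ?_
        split_ifs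
        · exact dexp_tendsto _
        · exact tendsto_const_nhds
    refine ht.congr' ?_
    filter_upwards [self_mem_nhdsWithin] with θ hθ
    exact (hD a b θ hθ).2.symm
  have hfin : Tendsto (fun θ => ρ⁻¹ * ∑ a, m a * ∑ b, (mA q a b - Kth q ρ e θ a b) / θ * e b)
      (𝓝[>] 0) (𝓝 (ρ⁻¹ * ∑ a, m a * ∑ b, (∫ ω, Sg ρ e b (fun x => x) ω ∂(law q a)) * e b)) := by
    refine Tendsto.const_mul _ (tendsto_finsetSum _ fun a _ => Tendsto.const_mul _
      (tendsto_finsetSum _ fun b _ => Tendsto.mul_const _ (hlim a b)))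
  have hval : ρ⁻¹ * ∑ a, m a * ∑ b, (∫ ω, Sg ρ e b (fun x => x) ω ∂(law q a)) * e b =
      (ρ - 1) * etaA q ρ e m := by
    -- the values for each `a`
    have hbw : ∀ b, Integrable (WW ρ e b) (law q b) := fun b => (hW2 b).integrable (by norm_num)
    have hbw2 : ∀ b, Integrable (fun ω => WW ρ e b ω ^ 2) (law q b) := fun b =>
      (hW2 b).integrable_sq
    have key : ∀ a, ∑ b, (∫ ω, Sg ρ e b (fun x => x) ω ∂(law q a)) * e b =
        ρ ^ 2 * ∫ ω, WW ρ e a ω ^ 2 ∂(law q a) -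
          ∑ b, mA q a b * ∫ ω, WW ρ e b ω ^ 2 ∂(law q b) := by
      intro a
      have p1 : ∑ b, (∫ ω, Sg ρ e b (fun x => x) ω ∂(law q a)) * e b =
          ∫ ω, (TT (fun b _ => e b) a ω * TT (WW ρ e) a ω -
            TT (fun b ω => e b * WW ρ e b ω) a ω) ∂(law q a) := by
        have : ∀ b, (∫ ω, Sg ρ e b (fun x => x) ω ∂(law q a)) * e b =
            ∫ ω, Sg ρ e b (fun x => x) ω * e b ∂(law q a) := fun b =>
          (integral_mul_const _ _).symm
        simp_rw [this]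
        rw [← integral_finsetSum _ (fun b _ => (hI a b).mul_const _)]
        refine integral_congr_ae (Eventually.of_forall fun ω => ?_)
        simp only [Sg, TT, Finset.sum_mul]
        rw [Finset.sum_comm, ← Finset.sum_sub_distrib]
        refine Finset.sum_congr rfl fun c hc => ?_
        simp only [ite_mul, zero_mul, Finset.sum_ite_eq, Finset.mem_univ, if_true]
        unfold Bc
        rw [Finset.sum_erase_eq_sub hc]
        ring
      -- second moments
      have q1 := h2 (fun b _ => e b) (fun b => memLp_const _) a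
      have q2 := h2 (WW ρ e) hW2 a
      have hq3 : ∀ b, MemLp (fun ω => e b + WW ρ e b ω) 2 (law q b) := fun b =>
        MemLp.add (f := fun _ => e b) (g := WW ρ e b) (memLp_const _) (hW2 b)
      have q3 := h2 (fun b ω => e b + WW ρ e b ω) hq3 a
      have s3 : ∀ ω, TT (fun b ω => e b + WW ρ e b ω) a ω =
          TT (fun b _ => e b) a ω + TT (WW ρ e) a ω := by
        intro ω; simp only [TT, Finset.sum_add_distrib]
      have m3 : ∀ b, ∫ ω, (e b + WW ρ e b ω) ∂(law q b) = 2 * e b := by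
        intro b
        rw [integral_add (integrable_const _) (hbw b), hWi b]
        simp; ring
      have m3' : ∀ b, ∫ ω, (e b + WW ρ e b ω) ^ 2 ∂(law q b) =
          3 * e b ^ 2 + ∫ ω, WW ρ e b ω ^ 2 ∂(law q b) := by
        intro b
        have : ∀ ω, (e b + WW ρ e b ω) ^ 2 = (e b ^ 2 + 2 * e b * WW ρ e b ω) + WW ρ e b ω ^ 2 :=
          fun ω => by ring
        simp_rw [this]
        rw [int3 (integrable_const _) ((hbw b).const_mul _) (hbw2 b), integral_const_mul, hWi b]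
        simp; ring
      have m1 : ∀ b, ∫ _ω : Env Q, e b ∂(law q b) = e b := by intro b; simp
      have m1' : ∀ b, ∫ _ω : Env Q, e b ^ 2 ∂(law q b) = e b ^ 2 := by intro b; simp
      obtain ⟨l1, v1⟩ := q1
      obtain ⟨l2, v2⟩ := q2
      obtain ⟨l3, v3⟩ := q3
      simp only [m1, m1', sub_self, mul_zero, Finset.sum_const_zero, zero_add] at v1
      simp only [hWi] at v2
      simp only [m3, m3', s3] at v3
      have i1 : Integrable (fun ω => TT (fun b _ => e b) a ω * TT (WW ρ e) a ω) (law q a) :=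
        l1.integrable_mul l2
      have v3' : ∫ ω, (TT (fun b _ => e b) a ω + TT (WW ρ e) a ω) ^ 2 ∂(law q a) =
          ∫ ω, TT (fun b _ => e b) a ω ^ 2 ∂(law q a) +
          2 * ∫ ω, TT (fun b _ => e b) a ω * TT (WW ρ e) a ω ∂(law q a) +
          ∫ ω, TT (WW ρ e) a ω ^ 2 ∂(law q a) := by
        have : ∀ ω, (TT (fun b _ => e b) a ω + TT (WW ρ e) a ω) ^ 2 =
            (TT (fun b _ => e b) a ω ^ 2 + 2 * (TT (fun b _ => e b) a ω * TT (WW ρ e) a ω)) +
              TT (WW ρ e) a ω ^ 2 := fun ω => by ring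
        simp_rw [this]
        rw [int3 l1.integrable_sq (i1.const_mul _) l2.integrable_sq, integral_const_mul]
      have sq4 : ∫ x, (∑ b, (x b : ℝ) * (2 * e b)) ^ 2 ∂(q a) =
          4 * ∫ x, (∑ b, (x b : ℝ) * e b) ^ 2 ∂(q a) := by
        rw [← integral_const_mul]
        refine integral_congr_ae (Eventually.of_forall fun x => ?_)
        simp only
        have : ∑ b, (x b : ℝ) * (2 * e b) = 2 * ∑ b, (x b : ℝ) * e b := by
          rw [Finset.mul_sum]; exact Finset.sum_congr rfl fun b _ => by ring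
        rw [this]; ring
      rw [sq4, v3', v1, v2] at v3
      have rec2 : ∫ ω, TT (WW ρ e) a ω ^ 2 ∂(law q a) =
          ρ ^ 2 * ∫ ω, WW ρ e a ω ^ 2 ∂(law q a) := by
        rw [← integral_const_mul]
        refine integral_congr_ae ?_
        filter_upwards [hWrec a] with ω hω
        have : TT (WW ρ e) a ω = ρ * WW ρ e a ω := hω.symm
        rw [this]; ring
      have t1 := h1.2 (fun b ω => e b * WW ρ e b ω) (fun b => (hbw b).const_mul _) a
      obtain ⟨t1i, t1v⟩ := t1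
      simp only [integral_const_mul, hWi] at t1v
      rw [p1, integral_sub i1 t1i, t1v]
      rw [rec2] at v2
      have e1 : ∑ b, mA q a b * (3 * e b ^ 2 + ∫ ω, WW ρ e b ω ^ 2 ∂(law q b) - (2 * e b) ^ 2) =
          ∑ b, mA q a b * (∫ ω, WW ρ e b ω ^ 2 ∂(law q b)) - ∑ b, mA q a b * (e b * e b) := by
        rw [← Finset.sum_sub_distrib]; exact Finset.sum_congr rfl fun b _ => by ring
      have e2 : ∑ b, mA q a b * (∫ ω, WW ρ e b ω ^ 2 ∂(law q b) - e b ^ 2) =
          ∑ b, mA q a b * (∫ ω, WW ρ e b ω ^ 2 ∂(law q b)) - ∑ b, mA q a b * (e b * e b) := by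
        rw [← Finset.sum_sub_distrib]; exact Finset.sum_congr rfl fun b _ => by ring
      rw [e1, e2] at v3
      rw [e2] at v2
      linarith
    simp_rw [key]
    have : ∑ a, m a * (ρ ^ 2 * ∫ ω, WW ρ e a ω ^ 2 ∂(law q a) -
        ∑ b, mA q a b * ∫ ω, WW ρ e b ω ^ 2 ∂(law q b)) =
        ρ ^ 2 * etaA q ρ e m - ρ * etaA q ρ e m := by
      simp only [mul_sub, Finset.sum_sub_distrib]
      have f1 : ∑ a, m a * (ρ ^ 2 * ∫ ω, WW ρ e a ω ^ 2 ∂(law q a)) = ρ ^ 2 * etaA q ρ e m := by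
        unfold etaA; rw [Finset.mul_sum]; exact Finset.sum_congr rfl fun b _ => by ring
      have f2 : ∑ a, m a * ∑ b, mA q a b * ∫ ω, WW ρ e b ω ^ 2 ∂(law q b) =
          ρ * etaA q ρ e m := by
        unfold etaA
        simp_rw [Finset.mul_sum]
        rw [Finset.sum_comm]
        refine Finset.sum_congr rfl fun b _ => ?_
        have := hy.pf.left b
        calc ∑ a, m a * (mA q a b * ∫ ω, WW ρ e b ω ^ 2 ∂(law q b)) =
            (∑ a, m a * mA q a b) * ∫ ω, WW ρ e b ω ^ 2 ∂(law q b) := by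
              rw [Finset.sum_mul]; exact Finset.sum_congr rfl fun a _ => by ring
          _ = _ := by rw [this]; ring
      rw [f1, f2]
    rw [this]
    field_simp
  rw [← hval]
  exact hfin

end Pool.Agent.H353
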